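import Mathlib

/-!
# FD add-on (F): fields with maximal Galois group

`full_of_card`: `L / ℚ` Galois, generated by the images of the embeddings `K → L`, `[L : ℚ] = [K : ℚ]!`: then
there are `[K : ℚ]` embeddings and the Galois group induces all permutations of them.
`exists_period`: then some `g` has an orbit of length `[K : ℚ] - 1` on the embeddings (`[K : ℚ] ≥ 2`).
-/

set_option linter.unusedSectionVars false
set_option linter.style.haveILetI false

namespace H93FD

section perm

/-- a permutation with an orbit of length `m`, on a set with `m + 1` elements -/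
theorem exists_perm_period' {E : Type*} [Fintype E] (m : ℕ) (hm : 1 ≤ m) (hE : Fintype.card E = m + 1) :
    ∃ (π : Equiv.Perm E) (x : E), Function.minimalPeriod π x = m ∧ π ^ m = 1 := by
  classical
  haveI : NeZero m := ⟨by omega⟩
  have hc : Fintype.card E = Fintype.card (Option (ZMod m)) := by
    rw [hE, Fintype.card_option, ZMod.card]
  let e : E ≃ Option (ZMod m) := Fintype.equivOfCardEq hc
  let r : Equiv.Perm (Option (ZMod m)) := (Equiv.addRight (1 : ZMod m)).optionCongr
  have hr : ∀ (k : ℕ) (y : ZMod m), r^[k] (some y) = some (y + k) := by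
    intro k
    induction k with
    | zero => intro y; simp
    | succ k ih =>
      intro y
      rw [Function.iterate_succ_apply]
      have : r (some y) = some (y + 1) := rfl
      rw [this, ih]
      congr 1
      push_cast
      ring
  have hr0 : ∀ k : ℕ, r^[k] none = none := by
    intro k
    induction k with
    | zero => rfl
    | succ k ih => rw [Function.iterate_succ_apply', ih]; rfl
  have hit' : ∀ (k : ℕ) (y : Option (ZMod m)), ((e.trans r).trans e.symm)^[k] (e.symm y) =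
      e.symm (r^[k] y) := by
    intro k y
    induction k with
    | zero => rfl
    | succ k ih =>
      rw [Function.iterate_succ_apply', ih, Function.iterate_succ_apply']
      simp
  have hit : ∀ k : ℕ, ((e.trans r).trans e.symm)^[k] (e.symm (some 0)) = e.symm (r^[k] (some 0)) :=
    fun k => hit' k _
  refine ⟨(e.trans r).trans e.symm, e.symm (some 0), ?_, ?_⟩
  swap
  · ext z
    rw [← Equiv.Perm.iterate_eq_pow]
    obtain ⟨y, rfl⟩ := e.symm.surjective z
    rw [hit', Equiv.Perm.one_apply]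
    rcases y with _ | y
    · rw [hr0]
    · rw [hr, ZMod.natCast_self, add_zero]
  have hper : ∀ k : ℕ, Function.IsPeriodicPt ((e.trans r).trans e.symm) k (e.symm (some 0)) ↔ m ∣ k := by
    intro k
    unfold Function.IsPeriodicPt Function.IsFixedPt
    rw [hit, hr, EmbeddingLike.apply_eq_iff_eq, Option.some_inj, zero_add, ZMod.natCast_eq_zero_iff]
  refine Nat.dvd_antisymm ?_ ?_
  · rw [← Function.isPeriodicPt_iff_minimalPeriod_dvd, hper]
  · rw [← hper, Function.isPeriodicPt_iff_minimalPeriod_dvd]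

/-- a permutation with an orbit of length `m`, on a set with `m + 1` elements -/
theorem exists_perm_period {E : Type*} [Fintype E] (m : ℕ) (hm : 1 ≤ m) (hE : Fintype.card E = m + 1) :
    ∃ (π : Equiv.Perm E) (x : E), Function.minimalPeriod π x = m := by
  obtain ⟨π, x, h, -⟩ := exists_perm_period' m hm hE
  exact ⟨π, x, h⟩

/-- elements of odd order are in all subgroups of index at most `2` -/
theorem mem_of_odd_order {G : Type*} [Group G] [Finite G] (H : Subgroup G)
    (hH : Nat.card G ≤ 2 * Nat.card H) (m : ℕ) (hm : Odd m) (π : G) (hπ : π ^ m = 1) : π ∈ H := by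
  have h1 := H.card_mul_index
  have h2 : 0 < Nat.card H := Nat.card_pos
  have h3 : H.index ≤ 2 := by
    rw [← h1, mul_comm] at hH
    exact Nat.le_of_mul_le_mul_right hH h2
  have h4 : H.index ≠ 0 := H.index_ne_zero_of_finite
  rcases (by omega : H.index = 1 ∨ H.index = 2) with h | h
  · rw [Subgroup.index_eq_one] at h
    rw [h]
    exact Subgroup.mem_top _
  · obtain ⟨k, rfl⟩ := hm
    have h5 : π = (π * π) ^ (k + 1) := by
      rw [← pow_two, ← pow_mul, show 2 * (k + 1) = (2 * k + 1) + 1 by ring, pow_succ, hπ, one_mul]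
    rw [h5]
    exact H.pow_mem (Subgroup.mul_self_mem_of_index_two h π) _

end perm

section field
variable {L : Type*} [Field L] [NumberField L] [IsGalois ℚ L] {K : Type*} [Field K] [NumberField K]

/-- composition with an automorphism, as a permutation of the embeddings -/
def compPerm (g : Gal(L/ℚ)) : Equiv.Perm (K →ₐ[ℚ] L) where
  toFun σ := (g : L →ₐ[ℚ] L).comp σ
  invFun σ := ((g⁻¹ : Gal(L/ℚ)) : L →ₐ[ℚ] L).comp σ
  left_inv σ := by
    ext x
    show g⁻¹ (g (σ x)) = σ x
    rw [← AlgEquiv.mul_apply, inv_mul_cancel]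
    rfl
  right_inv σ := by
    ext x
    show g (g⁻¹ (σ x)) = σ x
    rw [← AlgEquiv.mul_apply, mul_inv_cancel]
    rfl

theorem compPerm_injective (hgen : (⨆ σ : K →ₐ[ℚ] L, σ.fieldRange) = ⊤) :
    Function.Injective (compPerm : Gal(L/ℚ) → Equiv.Perm (K →ₐ[ℚ] L)) := by
  intro g h hgh
  have h1 : ∀ (σ : K →ₐ[ℚ] L) (x : K), g (σ x) = h (σ x) := by
    intro σ x
    have h2 : (compPerm g) σ = (compPerm h) σ := by rw [hgh]
    exact DFunLike.congr_fun h2 x
  have h2 : (⨆ σ : K →ₐ[ℚ] L, σ.fieldRange) ≤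
      IntermediateField.fixedField (Subgroup.zpowers (h⁻¹ * g)) := by
    refine iSup_le fun σ => ?_
    rintro y ⟨x, rfl⟩
    rw [IntermediateField.mem_fixedField_iff]
    intro f hf
    have h3 : Subgroup.zpowers (h⁻¹ * g) ≤ MulAction.stabilizer Gal(L/ℚ) (σ x) := by
      rw [Subgroup.zpowers_le, MulAction.mem_stabilizer_iff]
      show h⁻¹ (g (σ x)) = σ x
      rw [h1, ← AlgEquiv.mul_apply, inv_mul_cancel]
      rfl
    exact h3 hf
  rw [hgen, top_le_iff] at h2
  have h3 : h⁻¹ * g = 1 := by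
    ext y
    have hy : y ∈ IntermediateField.fixedField (Subgroup.zpowers (h⁻¹ * g)) := by
      rw [h2]
      trivial
    rw [IntermediateField.mem_fixedField_iff] at hy
    exact hy _ (Subgroup.mem_zpowers _)
  rw [inv_mul_eq_one] at h3
  exact h3.symm

/-- maximal Galois group: all permutations of the embeddings -/
theorem full_of_card (hn : 2 ≤ Module.finrank ℚ K)
    (hL : Module.finrank ℚ L = (Module.finrank ℚ K).factorial)
    (hgen : (⨆ σ : K →ₐ[ℚ] L, σ.fieldRange) = ⊤) :
    Nat.card (K →ₐ[ℚ] L) = Module.finrank ℚ K ∧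
      ∀ π : Equiv.Perm (K →ₐ[ℚ] L), ∃ g : Gal(L/ℚ), ∀ σ, (g : L →ₐ[ℚ] L).comp σ = π σ := by
  classical
  haveI : Fintype (K →ₐ[ℚ] L) := Fintype.ofFinite _
  have hinj := compPerm_injective hgen
  have hG : Nat.card Gal(L/ℚ) = (Module.finrank ℚ K).factorial := by
    rw [IsGalois.card_aut_eq_finrank, hL]
  have hle : Fintype.card (K →ₐ[ℚ] L) ≤ Module.finrank ℚ K := by
    rw [← Nat.card_eq_fintype_card]
    exact card_algHom_le_finrank ℚ K L
  have h1 : Nat.card Gal(L/ℚ) ≤ Nat.card (Equiv.Perm (K →ₐ[ℚ] L)) :=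
    Nat.card_le_card_of_injective _ hinj
  have h2 : Nat.card (Equiv.Perm (K →ₐ[ℚ] L)) = (Fintype.card (K →ₐ[ℚ] L)).factorial := by
    rw [Nat.card_eq_fintype_card, Fintype.card_perm]
  have hcard : Fintype.card (K →ₐ[ℚ] L) = Module.finrank ℚ K := by
    refine le_antisymm hle ?_
    by_contra hlt
    rw [not_le] at hlt
    rw [hG, h2] at h1
    rcases Nat.eq_zero_or_pos (Fintype.card (K →ₐ[ℚ] L)) with h0 | h0
    · rw [h0, Nat.factorial_zero] at h1
      have h3 := Nat.self_le_factorial (Module.finrank ℚ K)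
      omega
    · have h3 := (Nat.factorial_lt h0).2 hlt
      omega
  refine ⟨by rw [Nat.card_eq_fintype_card, hcard], ?_⟩
  have hbij : Function.Bijective (compPerm : Gal(L/ℚ) → Equiv.Perm (K →ₐ[ℚ] L)) := by
    refine (Nat.bijective_iff_injective_and_card _).2 ⟨hinj, ?_⟩
    rw [hG, h2, hcard]
  intro π
  obtain ⟨g, hg⟩ := hbij.2 π
  exact ⟨g, fun σ => by
    rw [← hg]
    rfl⟩

/-- all permutations: an element with an orbit of length `[K : ℚ] - 1` -/
theorem exists_period_of_perm (hn : 2 ≤ Module.finrank ℚ K)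
    (hcard : Nat.card (K →ₐ[ℚ] L) = Module.finrank ℚ K)
    (hπ : ∀ π : Equiv.Perm (K →ₐ[ℚ] L), ∃ g : Gal(L/ℚ), ∀ σ, (g : L →ₐ[ℚ] L).comp σ = π σ) :
    ∃ (g : Gal(L/ℚ)) (σ₀ : K →ₐ[ℚ] L),
      Function.minimalPeriod (fun σ : K →ₐ[ℚ] L => (g : L →ₐ[ℚ] L).comp σ) σ₀ =
        Module.finrank ℚ K - 1 := by
  classical
  haveI : Fintype (K →ₐ[ℚ] L) := Fintype.ofFinite _
  obtain ⟨π, x, hx⟩ := exists_perm_period (E := K →ₐ[ℚ] L) (Module.finrank ℚ K - 1) (by omega)
    (by rw [← Nat.card_eq_fintype_card, hcard]; omega)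
  obtain ⟨g, hg⟩ := hπ π
  refine ⟨g, x, ?_⟩
  have : (fun σ : K →ₐ[ℚ] L => (g : L →ₐ[ℚ] L).comp σ) = π := funext hg
  rw [this, hx]

/-- maximal Galois group: an element with an orbit of length `[K : ℚ] - 1` -/
theorem exists_period (hn : 2 ≤ Module.finrank ℚ K)
    (hL : Module.finrank ℚ L = (Module.finrank ℚ K).factorial)
    (hgen : (⨆ σ : K →ₐ[ℚ] L, σ.fieldRange) = ⊤) :
    ∃ (g : Gal(L/ℚ)) (σ₀ : K →ₐ[ℚ] L),
      Function.minimalPeriod (fun σ : K →ₐ[ℚ] L => (g : L →ₐ[ℚ] L).comp σ) σ₀ =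
        Module.finrank ℚ K - 1 :=
  exists_period_of_perm hn (full_of_card hn hL hgen).1 (full_of_card hn hL hgen).2

/-- the same for `normalClosure ℚ K L = ⊤` -/
theorem exists_period_nc (hn : 2 ≤ Module.finrank ℚ K)
    (hL : Module.finrank ℚ L = (Module.finrank ℚ K).factorial)
    (hgen : IntermediateField.normalClosure ℚ K L = ⊤) :
    ∃ (g : Gal(L/ℚ)) (σ₀ : K →ₐ[ℚ] L),
      Function.minimalPeriod (fun σ : K →ₐ[ℚ] L => (g : L →ₐ[ℚ] L).comp σ) σ₀ =
        Module.finrank ℚ K - 1 :=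
  exists_period hn hL hgen

/-- the same for a normal closure -/
theorem exists_period_inc [IsNormalClosure ℚ K L] (hn : 2 ≤ Module.finrank ℚ K)
    (hL : Module.finrank ℚ L = (Module.finrank ℚ K).factorial) :
    ∃ (g : Gal(L/ℚ)) (σ₀ : K →ₐ[ℚ] L),
      Function.minimalPeriod (fun σ : K →ₐ[ℚ] L => (g : L →ₐ[ℚ] L).comp σ) σ₀ =
        Module.finrank ℚ K - 1 :=
  exists_period hn hL (Algebra.IsAlgebraic.isNormalClosure_iff.1 inferInstance).2

/-- Galois group of index at most `2` in the full symmetric group, even degree: an element with an orbit of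
length `[K : ℚ] - 1` -/
theorem exists_period_half (hn : 4 ≤ Module.finrank ℚ K) (hev : Even (Module.finrank ℚ K))
    (hL : (Module.finrank ℚ K).factorial ≤ 2 * Module.finrank ℚ L)
    (hgen : (⨆ σ : K →ₐ[ℚ] L, σ.fieldRange) = ⊤) :
    ∃ (g : Gal(L/ℚ)) (σ₀ : K →ₐ[ℚ] L),
      Function.minimalPeriod (fun σ : K →ₐ[ℚ] L => (g : L →ₐ[ℚ] L).comp σ) σ₀ =
        Module.finrank ℚ K - 1 := by
  classical
  haveI : Fintype (K →ₐ[ℚ] L) := Fintype.ofFinite _
  have hinj := compPerm_injective hgen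
  have hle : Fintype.card (K →ₐ[ℚ] L) ≤ Module.finrank ℚ K := by
    rw [← Nat.card_eq_fintype_card]
    exact card_algHom_le_finrank ℚ K L
  have h1 : Nat.card Gal(L/ℚ) ≤ Nat.card (Equiv.Perm (K →ₐ[ℚ] L)) :=
    Nat.card_le_card_of_injective _ hinj
  have h2 : Nat.card (Equiv.Perm (K →ₐ[ℚ] L)) = (Fintype.card (K →ₐ[ℚ] L)).factorial := by
    rw [Nat.card_eq_fintype_card, Fintype.card_perm]
  rw [← IsGalois.card_aut_eq_finrank ℚ L] at hL
  have hcard : Fintype.card (K →ₐ[ℚ] L) = Module.finrank ℚ K := by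
    refine le_antisymm hle ?_
    by_contra hlt
    rw [not_le] at hlt
    obtain ⟨d, hd⟩ : ∃ d, Module.finrank ℚ K = d + 1 := ⟨Module.finrank ℚ K - 1, by omega⟩
    rw [hd] at hL hlt hn
    have h3 : (Fintype.card (K →ₐ[ℚ] L)).factorial ≤ d.factorial := Nat.factorial_le (by omega)
    rw [Nat.factorial_succ] at hL
    have h4 : 0 < d.factorial := Nat.factorial_pos d
    have h5 : (d + 1) * d.factorial ≤ 2 * d.factorial := by
      calc (d + 1) * d.factorial ≤ 2 * Nat.card Gal(L/ℚ) := hL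
        _ ≤ 2 * d.factorial := Nat.mul_le_mul_left 2 ((h1.trans_eq h2).trans h3)
    have := Nat.le_of_mul_le_mul_right h5 h4
    omega
  obtain ⟨π, x, hx, hπ⟩ := exists_perm_period' (E := K →ₐ[ℚ] L) (Module.finrank ℚ K - 1) (by omega)
    (by rw [hcard]; omega)
  let Φ : Gal(L/ℚ) →* Equiv.Perm (K →ₐ[ℚ] L) :=
    { toFun := compPerm
      map_one' := by
        ext σ y
        rfl
      map_mul' := fun g h => by
        ext σ y
        rfl }
  have hΦ : Function.Injective Φ := hinj
  have hr : Nat.card Φ.range = Nat.card Gal(L/ℚ) :=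
    (Nat.card_congr (MonoidHom.ofInjective hΦ).toEquiv).symm
  have hodd : Odd (Module.finrank ℚ K - 1) := by
    obtain ⟨k, hk⟩ := hev
    exact ⟨k - 1, by omega⟩
  obtain ⟨g, hg⟩ := mem_of_odd_order Φ.range (by rw [h2, hcard, hr]; exact hL) _ hodd π hπ
  refine ⟨g, x, ?_⟩
  have : (fun σ : K →ₐ[ℚ] L => (g : L →ₐ[ℚ] L).comp σ) = π := by
    rw [← hg]
    rfl
  rw [this, hx]

end field

end H93FD
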