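import Pool.Agent.H93.FD.Sn

/-!
# FD2 (D): elements with a long orbit of odd length

`long_count`: `L / ℚ` Galois, generated by the images of the embeddings `K → L`, `[K : ℚ] = d ≥ 3`,
`[L : ℚ] ≥ d! / 2`: at least one fifth of the elements of the Galois group have an orbit of odd length
`> d / 2` on the embeddings.
`long_count_sum`: the exact lower bound `∑ 1 / k` over the odd `k` with `d / 2 < k ≤ d`.
-/

set_option linter.unusedSectionVars false
set_option linter.style.haveILetI false

open Function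

namespace H93FD

section orbit

theorem iterate_embedding {X : Type*} (f : X → X) (k : ℕ) (e : ZMod k → X)
    (he : ∀ i, f (e i) = e (i + 1)) (j : ℕ) : f^[j] (e 0) = e j := by
  induction j with
  | zero => simp
  | succ j ih => rw [iterate_succ_apply', ih, he]; push_cast; rfl

theorem minimalPeriod_embedding {X : Type*} (f : X → X) (k : ℕ) (e : ZMod k ↪ X)
    (he : ∀ i, f (e i) = e (i + 1)) : minimalPeriod f (e 0) = k := by
  have hper : ∀ j : ℕ, IsPeriodicPt f j (e 0) ↔ k ∣ j := by
    intro j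
    unfold IsPeriodicPt IsFixedPt
    rw [iterate_embedding f k e he, EmbeddingLike.apply_eq_iff_eq, ZMod.natCast_eq_zero_iff]
  refine Nat.dvd_antisymm ?_ ?_
  · rw [← isPeriodicPt_iff_minimalPeriod_dvd, hper]
  · rw [← hper, isPeriodicPt_iff_minimalPeriod_dvd]

/-- two long orbits coincide -/
theorem mem_orbit_of_long {X : Type*} [Fintype X] [DecidableEq X] (f : X → X) (x y : X)
    (hx : Fintype.card X < 2 * minimalPeriod f x) (hy : Fintype.card X < 2 * minimalPeriod f y) :
    minimalPeriod f y = minimalPeriod f x ∧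
      y ∈ (Finset.range (minimalPeriod f x)).image (fun i => f^[i] x) := by
  have hx0 : 0 < minimalPeriod f x := by omega
  have hy0 : 0 < minimalPeriod f y := by omega
  have hc : ∀ z : X, ((Finset.range (minimalPeriod f z)).image (fun i => f^[i] z)).card =
      minimalPeriod f z := by
    intro z
    rw [Finset.card_image_of_injOn, Finset.card_range]
    intro i hi j hj hij
    exact iterate_injOn_Iio_minimalPeriod (by simpa using hi) (by simpa using hj) hij
  have hnd : ¬ Disjoint ((Finset.range (minimalPeriod f x)).image (fun i => f^[i] x))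
      ((Finset.range (minimalPeriod f y)).image (fun i => f^[i] y)) := by
    intro hd
    have h1 := Finset.card_union_of_disjoint hd
    have h2 := Finset.card_le_univ (((Finset.range (minimalPeriod f x)).image (fun i => f^[i] x)) ∪
      ((Finset.range (minimalPeriod f y)).image (fun i => f^[i] y)))
    rw [h1, hc, hc] at h2
    omega
  rw [Finset.not_disjoint_iff] at hnd
  obtain ⟨z, hz1, hz2⟩ := hnd
  obtain ⟨i, hi, rfl⟩ := Finset.mem_image.1 hz1
  obtain ⟨j, hj, hij⟩ := Finset.mem_image.1 hz2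
  rw [Finset.mem_range] at hi hj
  have hxp : x ∈ periodicPts f := minimalPeriod_pos_iff_mem_periodicPts.1 hx0
  have hyp : y ∈ periodicPts f := minimalPeriod_pos_iff_mem_periodicPts.1 hy0
  refine ⟨?_, ?_⟩
  · rw [← minimalPeriod_apply_iterate hyp j, hij, minimalPeriod_apply_iterate hxp i]
  · have h3 : y = f^[minimalPeriod f y - j + i] x := by
      rw [iterate_add_apply, ← hij, ← iterate_add_apply, Nat.sub_add_cancel hj.le]
      exact (isPeriodicPt_minimalPeriod f y).eq.symm
    refine Finset.mem_image.2 ⟨(minimalPeriod f y - j + i) % minimalPeriod f x,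
      Finset.mem_range.2 (Nat.mod_lt _ hx0), ?_⟩
    rw [iterate_mod_minimalPeriod_eq, ← h3]

end orbit

section group
variable {G X : Type*} [Group G] [Finite G] [Finite X]

/-- pairs of a group element and a point with an orbit of length `k` -/
theorem card_le_pairs (Φ : G →* Equiv.Perm X) (k : ℕ) [NeZero k] [Nonempty (ZMod k ↪ X)]
    (hc : ∀ e : ZMod k ↪ X, ∃ g : G, ∀ i, Φ g (e i) = e (i + 1)) :
    Nat.card G ≤ Nat.card {q : G × X // minimalPeriod (Φ q.1) q.2 = k} := by
  classical
  letI : MulAction G X := MulAction.compHom X Φ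
  have hsm : ∀ (g : G) (x : X), g • x = Φ g x := fun g x => rfl
  choose c hc using hc
  haveI : Finite (ZMod k ↪ X) := inferInstance
  let F : (Σ a : G, MulAction.fixedBy (ZMod k ↪ X) a) → {q : G × X // minimalPeriod (Φ q.1) q.2 = k} :=
    fun s => ⟨(c s.2.1 * s.1, s.2.1 0), by
      refine minimalPeriod_embedding (Φ (c s.2.1 * s.1)) k s.2.1 fun i => ?_
      rw [map_mul, Equiv.Perm.mul_apply]
      have h1 : s.1 • s.2.1 = s.2.1 := s.2.2
      have h2 : Φ s.1 (s.2.1 i) = s.2.1 i := by
        conv_rhs => rw [← h1]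
        rfl
      rw [h2, hc]⟩
  have hF : ∀ s, ∀ i, Φ (F s).1.1 (s.2.1 i) = s.2.1 (i + 1) := by
    intro s i
    show Φ (c s.2.1 * s.1) (s.2.1 i) = s.2.1 (i + 1)
    rw [map_mul, Equiv.Perm.mul_apply]
    have h1 : s.1 • s.2.1 = s.2.1 := s.2.2
    have h2 : Φ s.1 (s.2.1 i) = s.2.1 i := by
      conv_rhs => rw [← h1]
      rfl
    rw [h2, hc]
  have hinj : Injective F := by
    rintro ⟨g, e⟩ ⟨g', e'⟩ hs
    have h0 : e.1 0 = e'.1 0 := congrArg (fun q => q.1.2) hs
    have hg : c e.1 * g = c e'.1 * g' := congrArg (fun q => q.1.1) hs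
    have he : e.1 = e'.1 := by
      ext i
      have h1 := iterate_embedding (Φ (F ⟨g, e⟩).1.1) k e.1 (hF ⟨g, e⟩) i.val
      have h2 := iterate_embedding (Φ (F ⟨g', e'⟩).1.1) k e'.1 (hF ⟨g', e'⟩) i.val
      rw [ZMod.natCast_zmod_val] at h1 h2
      rw [← h1, ← h2, h0, hs]
    have hgg : g = g' := by
      rw [he] at hg
      exact mul_left_cancel hg
    subst hgg
    have : e = e' := Subtype.ext he
    rw [this]
  haveI : Finite {q : G × X // minimalPeriod (Φ q.1) q.2 = k} := inferInstance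
  have h1 : Nat.card (Σ a : G, MulAction.fixedBy (ZMod k ↪ X) a) ≤
      Nat.card {q : G × X // minimalPeriod (Φ q.1) q.2 = k} := Nat.card_le_card_of_injective F hinj
  refine le_trans ?_ h1
  rw [Nat.card_congr (MulAction.sigmaFixedByEquivOrbitsProdGroup G (ZMod k ↪ X)), Nat.card_prod]
  haveI : Nonempty (Quotient (MulAction.orbitRel G (ZMod k ↪ X))) :=
    ⟨Quotient.mk _ (Classical.arbitrary _)⟩
  have h2 : 0 < Nat.card (Quotient (MulAction.orbitRel G (ZMod k ↪ X))) := Nat.card_pos
  exact Nat.le_mul_of_pos_left _ h2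

/-- the number of group elements with an orbit of length `k > d / 2` -/
theorem card_le_mul_long (Φ : G →* Equiv.Perm X) (k : ℕ) (hk : Nat.card X < 2 * k)
    (hkd : k ≤ Nat.card X)
    (hc : ∀ e : ZMod k ↪ X, ∃ g : G, ∀ i, Φ g (e i) = e (i + 1)) :
    Nat.card G ≤ k * Nat.card {g : G // ∃ x : X, minimalPeriod (Φ g) x = k} := by
  classical
  haveI : Fintype G := Fintype.ofFinite _
  haveI : Fintype X := Fintype.ofFinite _
  rw [Nat.card_eq_fintype_card] at hk hkd
  haveI : NeZero k := ⟨by omega⟩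
  haveI : Nonempty (ZMod k ↪ X) :=
    Function.Embedding.nonempty_of_card_le (by rw [ZMod.card]; exact hkd)
  refine (card_le_pairs Φ k hc).trans ?_
  rw [Nat.card_eq_fintype_card, Nat.card_eq_fintype_card, Fintype.card_subtype, Fintype.card_subtype]
  have h1 := Finset.card_le_mul_card_image (f := Prod.fst)
    (Finset.univ.filter fun q : G × X => minimalPeriod (Φ q.1) q.2 = k) k ?_
  · refine h1.trans (Nat.mul_le_mul_left k (Finset.card_le_card ?_))
    intro g hg
    obtain ⟨q, hq, rfl⟩ := Finset.mem_image.1 hg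
    exact Finset.mem_filter.2 ⟨Finset.mem_univ _, q.2, (Finset.mem_filter.1 hq).2⟩
  · intro g hg
    obtain ⟨q, hq, rfl⟩ := Finset.mem_image.1 hg
    have hq2 : minimalPeriod (Φ q.1) q.2 = k := (Finset.mem_filter.1 hq).2
    have h2 : ((Finset.univ.filter fun q : G × X => minimalPeriod (Φ q.1) q.2 = k).filter
        fun q' => q'.1 = q.1) ⊆ ((Finset.range k).image fun i => (q.1, (Φ q.1)^[i] q.2)) := by
      rintro ⟨g', y⟩ hy
      rw [Finset.mem_filter, Finset.mem_filter] at hy
      obtain ⟨⟨-, hy1⟩, hy2⟩ := hy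
      simp only at hy1 hy2
      subst hy2
      obtain ⟨-, hy3⟩ := mem_orbit_of_long (Φ q.1) q.2 y (by omega) (by omega)
      rw [hq2] at hy3
      obtain ⟨i, hi, rfl⟩ := Finset.mem_image.1 hy3
      exact Finset.mem_image.2 ⟨i, hi, rfl⟩
    refine (Finset.card_le_card h2).trans (Finset.card_image_le.trans ?_)
    rw [Finset.card_range]

/-- the number of group elements with an orbit of length in `S`, all elements of `S` being `> d / 2` -/
theorem sum_le_long (Φ : G →* Equiv.Perm X) (S : Finset ℕ) (hS : ∀ k ∈ S, Nat.card X < 2 * k)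
    (hSd : ∀ k ∈ S, k ≤ Nat.card X)
    (hc : ∀ k ∈ S, ∀ e : ZMod k ↪ X, ∃ g : G, ∀ i, Φ g (e i) = e (i + 1)) :
    (Nat.card G : ℝ) * ∑ k ∈ S, (1 / (k : ℝ)) ≤
      Nat.card {g : G // ∃ x : X, minimalPeriod (Φ g) x ∈ S} := by
  classical
  haveI : Fintype G := Fintype.ofFinite _
  haveI : Fintype X := Fintype.ofFinite _
  have hdis : ∀ k ∈ S, ∀ l ∈ S, k ≠ l →
      Disjoint (Finset.univ.filter fun g : G => ∃ x : X, minimalPeriod (Φ g) x = k)
        (Finset.univ.filter fun g : G => ∃ x : X, minimalPeriod (Φ g) x = l) := by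
    intro k hk l hl hkl
    rw [Finset.disjoint_left]
    intro g hg1 hg2
    obtain ⟨x, hx⟩ := (Finset.mem_filter.1 hg1).2
    obtain ⟨y, hy⟩ := (Finset.mem_filter.1 hg2).2
    have h1 := hS k hk
    have h2 := hS l hl
    rw [Nat.card_eq_fintype_card] at h1 h2
    have h3 := (mem_orbit_of_long (Φ g) x y (by omega) (by omega)).1
    exact hkl (by rw [← hx, ← hy, h3])
  have h1 : (Finset.univ.filter fun g : G => ∃ x : X, minimalPeriod (Φ g) x ∈ S) =
      S.biUnion fun k => Finset.univ.filter fun g : G => ∃ x : X, minimalPeriod (Φ g) x = k := by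
    ext g
    simp only [Finset.mem_filter, Finset.mem_univ, true_and, Finset.mem_biUnion]
    constructor
    · rintro ⟨x, hx⟩
      exact ⟨_, hx, x, rfl⟩
    · rintro ⟨k, hk, x, hx⟩
      exact ⟨x, hx ▸ hk⟩
  have h2 : (Nat.card {g : G // ∃ x : X, minimalPeriod (Φ g) x ∈ S}) =
      ∑ k ∈ S, Nat.card {g : G // ∃ x : X, minimalPeriod (Φ g) x = k} := by
    rw [Nat.card_eq_fintype_card, Fintype.card_subtype, h1, Finset.card_biUnion hdis]
    refine Finset.sum_congr rfl fun k _ => ?_
    rw [Nat.card_eq_fintype_card, Fintype.card_subtype]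
  rw [h2, Nat.cast_sum, Finset.mul_sum]
  refine Finset.sum_le_sum fun k hk => ?_
  have h3 := hS k hk
  have hk0 : 0 < k := by omega
  have h4 := card_le_mul_long Φ k h3 (hSd k hk) (hc k hk)
  have h5 : (Nat.card G : ℝ) ≤ k * Nat.card {g : G // ∃ x : X, minimalPeriod (Φ g) x = k} := by
    exact_mod_cast h4
  have hk0' : (0 : ℝ) < k := by exact_mod_cast hk0
  rw [mul_one_div, div_le_iff₀ hk0']
  linarith

/-- a permutation of odd order which moves along a given cycle -/
theorem exists_cycle {X : Type*} (k : ℕ) [NeZero k] (e : ZMod k ↪ X) :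
    ∃ π : Equiv.Perm X, (∀ i, π (e i) = e (i + 1)) ∧ π ^ k = 1 := by
  refine ⟨Equiv.Perm.viaEmbeddingHom e (Equiv.addRight 1), fun i => ?_, ?_⟩
  · rw [Equiv.Perm.viaEmbeddingHom_apply, Equiv.Perm.viaEmbedding_apply]
    rfl
  · have h1 : (Equiv.addRight (1 : ZMod k)) ^ k = 1 := by
      ext i
      have h2 : ∀ (j : ℕ) (i : ZMod k), ((Equiv.addRight (1 : ZMod k)) ^ j) i = i + j := by
        intro j
        induction j with
        | zero => intro i; simp
        | succ j ih =>
          intro i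
          rw [pow_succ, Equiv.Perm.mul_apply, ih]
          show i + 1 + j = i + ((j + 1 : ℕ) : ZMod k)
          push_cast
          ring
      rw [h2, ZMod.natCast_self, add_zero, Equiv.Perm.one_apply]
    rw [← map_pow, h1, map_one]

end group

section numeric

/-- the odd numbers in `(d / 2, d]` -/
def oddLong (d : ℕ) : Finset ℕ := (Finset.Ioc (d / 2) d).filter Odd

theorem mem_oddLong {d k : ℕ} : k ∈ oddLong d ↔ d < 2 * k ∧ k ≤ d ∧ Odd k := by
  unfold oddLong
  rw [Finset.mem_filter, Finset.mem_Ioc]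
  constructor
  · rintro ⟨⟨h1, h2⟩, h3⟩
    exact ⟨by omega, h2, h3⟩
  · rintro ⟨h1, h2, h3⟩
    exact ⟨⟨by omega, h2⟩, h3⟩

theorem card_oddLong (d : ℕ) : d ≤ 4 * (oddLong d).card + 2 := by
  have h1 : ((Finset.Ico ((d / 2 + 1) / 2) ((d + 1) / 2)).image fun i => 2 * i + 1) ⊆ oddLong d := by
    intro k hk
    obtain ⟨i, hi, rfl⟩ := Finset.mem_image.1 hk
    rw [Finset.mem_Ico] at hi
    rw [mem_oddLong]
    refine ⟨by omega, by omega, i, rfl⟩
  have h2 := Finset.card_le_card h1
  rw [Finset.card_image_of_injective _ (fun a b h => by simpa using h), Nat.card_Ico] at h2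
  omega

theorem sum_oddLong (d : ℕ) (hd : 3 ≤ d) : (1 : ℝ) / 5 ≤ ∑ k ∈ oddLong d, (1 / (k : ℝ)) := by
  rcases le_or_gt 10 d with h | h
  · have h1 : (oddLong d).card • (1 / (d : ℝ)) ≤ ∑ k ∈ oddLong d, (1 / (k : ℝ)) := by
      refine Finset.card_nsmul_le_sum _ _ _ fun k hk => ?_
      obtain ⟨h2, h3, -⟩ := mem_oddLong.1 hk
      have h4 : (0 : ℝ) < k := by
        have : 0 < k := by omega
        exact_mod_cast this
      exact one_div_le_one_div_of_le h4 (by exact_mod_cast h3)
    refine le_trans ?_ h1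
    rw [nsmul_eq_mul, mul_one_div]
    have h5 : (0 : ℝ) < d := by
      have : 0 < d := by omega
      exact_mod_cast this
    rw [div_le_div_iff₀ (by norm_num) h5]
    have h6 := card_oddLong d
    have h7 : d ≤ 5 * (oddLong d).card := by omega
    have h8 : (d : ℝ) ≤ 5 * (oddLong d).card := by exact_mod_cast h7
    linarith
  · have h3 : oddLong 3 = {3} := by decide
    have h4 : oddLong 4 = {3} := by decide
    have h5 : oddLong 5 = {3, 5} := by decide
    have h6 : oddLong 6 = {5} := by decide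
    have h7 : oddLong 7 = {5, 7} := by decide
    have h8 : oddLong 8 = {5, 7} := by decide
    have h9 : oddLong 9 = {5, 7, 9} := by decide
    interval_cases d
    · rw [h3]; norm_num
    · rw [h4]; norm_num
    · rw [h5]; norm_num
    · rw [h6]; norm_num
    · rw [h7]; norm_num
    · rw [h8]; norm_num
    · rw [h9]; norm_num

end numeric

section field
variable {K L : Type*} [Field K] [NumberField K] [Field L] [NumberField L] [IsGalois ℚ L]

/-- the Galois group on the embeddings -/
def compHom (K L : Type*) [Field K] [NumberField K] [Field L] [NumberField L] [IsGalois ℚ L] :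
    Gal(L/ℚ) →* Equiv.Perm (K →ₐ[ℚ] L) where
  toFun := compPerm
  map_one' := by
    ext σ y
    rfl
  map_mul' := fun g h => by
    ext σ y
    rfl

/-- Galois group of index at most `2`: the number of embeddings is `[K : ℚ]` -/
theorem card_emb_of_half (h3 : 3 ≤ Module.finrank ℚ K)
    (hgen : (⨆ σ : K →ₐ[ℚ] L, σ.fieldRange) = ⊤)
    (hL : (Module.finrank ℚ K).factorial ≤ 2 * Module.finrank ℚ L) :
    Nat.card (K →ₐ[ℚ] L) = Module.finrank ℚ K := by
  classical
  haveI : Fintype (K →ₐ[ℚ] L) := Fintype.ofFinite _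
  have hinj := compPerm_injective hgen
  have hle : Nat.card (K →ₐ[ℚ] L) ≤ Module.finrank ℚ K := card_algHom_le_finrank ℚ K L
  have h1 : Nat.card Gal(L/ℚ) ≤ Nat.card (Equiv.Perm (K →ₐ[ℚ] L)) :=
    Nat.card_le_card_of_injective _ hinj
  have h2 : Nat.card (Equiv.Perm (K →ₐ[ℚ] L)) = (Nat.card (K →ₐ[ℚ] L)).factorial := by
    rw [Nat.card_eq_fintype_card, Fintype.card_perm, Nat.card_eq_fintype_card]
  rw [← IsGalois.card_aut_eq_finrank ℚ L] at hL
  refine le_antisymm hle ?_
  by_contra hlt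
  rw [not_le] at hlt
  obtain ⟨d, hd⟩ : ∃ d, Module.finrank ℚ K = d + 1 := ⟨Module.finrank ℚ K - 1, by omega⟩
  rw [hd] at hL hlt h3
  have h4 : (Nat.card (K →ₐ[ℚ] L)).factorial ≤ d.factorial := Nat.factorial_le (by omega)
  rw [Nat.factorial_succ] at hL
  have h5 : 0 < d.factorial := Nat.factorial_pos d
  have h6 : (d + 1) * d.factorial ≤ 2 * d.factorial := by
    calc (d + 1) * d.factorial ≤ 2 * Nat.card Gal(L/ℚ) := hL
      _ ≤ 2 * d.factorial := Nat.mul_le_mul_left 2 ((h1.trans_eq h2).trans h4)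
  have := Nat.le_of_mul_le_mul_right h6 h5
  omega

/-- the lower bound `[L : ℚ] ∑ 1 / k` over the odd `k` with `d / 2 < k ≤ d` -/
theorem long_count_sum (h3 : 3 ≤ Module.finrank ℚ K)
    (hgen : (⨆ σ : K →ₐ[ℚ] L, σ.fieldRange) = ⊤)
    (hL : (Module.finrank ℚ K).factorial ≤ 2 * Module.finrank ℚ L) :
    (Module.finrank ℚ L : ℝ) * ∑ k ∈ oddLong (Module.finrank ℚ K), (1 / (k : ℝ)) ≤
      Nat.card {g : Gal(L/ℚ) // ∃ s : K →ₐ[ℚ] L,
        Odd (minimalPeriod (fun t : K →ₐ[ℚ] L => (g : L →ₐ[ℚ] L).comp t) s) ∧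
        Module.finrank ℚ K < 2 * minimalPeriod (fun t : K →ₐ[ℚ] L => (g : L →ₐ[ℚ] L).comp t) s} := by
  classical
  have hcard := card_emb_of_half h3 hgen hL
  have hinj : Injective (compHom K L) := compPerm_injective hgen
  have hr : Nat.card (compHom K L).range = Nat.card Gal(L/ℚ) :=
    (Nat.card_congr (MonoidHom.ofInjective hinj).toEquiv).symm
  haveI : Fintype (K →ₐ[ℚ] L) := Fintype.ofFinite _
  have h2 : Nat.card (Equiv.Perm (K →ₐ[ℚ] L)) = (Module.finrank ℚ K).factorial := by
    rw [Nat.card_eq_fintype_card, Fintype.card_perm, ← Nat.card_eq_fintype_card, hcard]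
  have hmain := sum_le_long (compHom K L) (oddLong (Module.finrank ℚ K))
    (fun k hk => by rw [hcard]; exact (mem_oddLong.1 hk).1)
    (fun k hk => by rw [hcard]; exact (mem_oddLong.1 hk).2.1)
    (fun k hk e => by
      obtain ⟨h4, h5, h6⟩ := mem_oddLong.1 hk
      haveI : NeZero k := ⟨by omega⟩
      obtain ⟨π, hπ, hπk⟩ := exists_cycle k e
      have h7 : π ∈ (compHom K L).range :=
        mem_of_odd_order _ (by rw [h2, hr, IsGalois.card_aut_eq_finrank]; exact hL) k h6 π hπk
      obtain ⟨g, hg⟩ := h7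
      exact ⟨g, fun i => by rw [hg]; exact hπ i⟩)
  rw [IsGalois.card_aut_eq_finrank] at hmain
  refine hmain.trans ?_
  have h8 : Nat.card {g : Gal(L/ℚ) // ∃ x : K →ₐ[ℚ] L,
      minimalPeriod (compHom K L g) x ∈ oddLong (Module.finrank ℚ K)} ≤
      Nat.card {g : Gal(L/ℚ) // ∃ s : K →ₐ[ℚ] L,
        Odd (minimalPeriod (fun t : K →ₐ[ℚ] L => (g : L →ₐ[ℚ] L).comp t) s) ∧
        Module.finrank ℚ K <
          2 * minimalPeriod (fun t : K →ₐ[ℚ] L => (g : L →ₐ[ℚ] L).comp t) s} := by
    refine Nat.card_le_card_of_injective (Subtype.map id ?_) (Subtype.map_injective _ injective_id)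
    rintro g ⟨x, hx⟩
    obtain ⟨h4, h5, h6⟩ := mem_oddLong.1 hx
    exact ⟨x, h6, h4⟩
  exact_mod_cast h8

/-- at least one fifth of the elements have an orbit of odd length `> d / 2` on the embeddings -/
theorem long_count (h3 : 3 ≤ Module.finrank ℚ K)
    (hgen : (⨆ σ : K →ₐ[ℚ] L, σ.fieldRange) = ⊤)
    (hL : (Module.finrank ℚ K).factorial ≤ 2 * Module.finrank ℚ L) :
    (Module.finrank ℚ L : ℝ) / 5 ≤
      Nat.card {g : Gal(L/ℚ) // ∃ s : K →ₐ[ℚ] L,
        Odd (minimalPeriod (fun t : K →ₐ[ℚ] L => (g : L →ₐ[ℚ] L).comp t) s) ∧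
        Module.finrank ℚ K < 2 * minimalPeriod (fun t : K →ₐ[ℚ] L => (g : L →ₐ[ℚ] L).comp t) s} := by
  refine le_trans ?_ (long_count_sum h3 hgen hL)
  have h1 := sum_oddLong _ h3
  have h2 : (0 : ℝ) ≤ Module.finrank ℚ L := Nat.cast_nonneg _
  have h4 := mul_le_mul_of_nonneg_left h1 h2
  rw [mul_one_div] at h4
  exact h4

end field

end H93FD
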