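import Mathlib

/-!
# Project FD (MP_ef6a16_nt): the analytic end of Step 2 (residues)

`F J a s r x = ∑_{j ∈ J} a_j / (1 - s_j exp (r_j x))`.  If the Taylor coefficients of `F` at `0`
vanish for all `m ≥ 1`, `m ≡ c mod N` (`N` even, `c` even), then for every `x`
`∑_{s_j e^{r_j x} = 1} a_j / r_j = ∑_{s_j e^{-r_j x} = 1} a_j / r_j`.
-/

namespace H93FD

open Complex Filter Topology

/-- the function `∑ a_j / (1 - s_j exp (r_j x))` -/
noncomputable def F {ι : Type*} (J : Finset ι) (a s : ι → ℂ) (r : ι → ℕ) (x : ℂ) : ℂ :=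
  ∑ j ∈ J, a j / (1 - s j * exp (r j * x))

/-- minus the residue of `F` at `x` -/
noncomputable def rho {ι : Type*} (J : Finset ι) (a s : ι → ℂ) (r : ι → ℕ) (x : ℂ) : ℂ :=
  ∑ j ∈ J, if s j * exp (r j * x) = 1 then a j / r j else 0

theorem tendsto_res (a s w x0 : ℂ) (r : ℕ) (hr : 0 < r) (hw : w ≠ 0) :
    Tendsto (fun x => (x - x0) * (a / (1 - s * exp (r * (w * x))))) (𝓝[≠] x0)
      (𝓝 (if s * exp (r * (w * x0)) = 1 then -(a / (r * w)) else 0)) := by
  have hr' : (r : ℂ) ≠ 0 := by exact_mod_cast hr.ne'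
  set D : ℂ → ℂ := fun x => 1 - s * exp (r * (w * x)) with hD
  have hder : HasDerivAt D (-(s * (exp (r * (w * x0)) * (r * (w * 1))))) x0 := by
    have h1 : HasDerivAt (fun x : ℂ => (r : ℂ) * (w * x)) (r * (w * 1)) x0 :=
      ((hasDerivAt_id x0).const_mul w).const_mul (r : ℂ)
    have h2 := (h1.cexp.const_mul s).const_sub 1
    simpa [hD] using h2
  split_ifs with h1
  · have hD0 : D x0 = 0 := by simp [hD, h1]
    have hval : (-(s * (exp (r * (w * x0)) * (r * (w * 1))))) = -(r * w) := by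
      have : s * (exp (r * (w * x0)) * (r * (w * 1))) = (s * exp (r * (w * x0))) * (r * w) := by
        ring
      rw [this, h1, one_mul]
    rw [hval] at hder
    have hne : -((r : ℂ) * w) ≠ 0 := neg_ne_zero.2 (mul_ne_zero hr' hw)
    have h2 := (hasDerivAt_iff_tendsto_slope.1 hder).inv₀ hne
    have h3 := h2.const_mul a
    have h4 : a * (-((r : ℂ) * w))⁻¹ = -(a / (r * w)) := by
      rw [inv_neg, mul_neg, div_eq_mul_inv]
    rw [h4] at h3
    refine h3.congr (fun x => ?_)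
    simp only [slope_def_field, hD0, sub_zero, inv_div]
    simp only [hD]
    ring
  · have hD0 : D x0 ≠ 0 := by
      simp only [hD]
      intro h
      exact h1 (by linear_combination -h)
    have h2 : ContinuousAt (fun x => (x - x0) * (a / D x)) x0 := by
      refine ContinuousAt.mul (by fun_prop) (ContinuousAt.div continuousAt_const ?_ hD0)
      exact hder.continuousAt
    have h3 := h2.tendsto
    simp only [sub_self, zero_mul] at h3
    exact h3.mono_left nhdsWithin_le_nhds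

theorem countable_pole (s w : ℂ) (r : ℕ) (hs : s ≠ 0) (hr : 0 < r) (hw : w ≠ 0) :
    {x : ℂ | s * exp (r * (w * x)) = 1}.Countable := by
  have hr' : (r : ℂ) ≠ 0 := by exact_mod_cast hr.ne'
  have hrw : (r : ℂ) * w ≠ 0 := mul_ne_zero hr' hw
  have hsub : {x : ℂ | s * exp (r * (w * x)) = 1} ⊆
      Set.range (fun n : ℤ => (log s⁻¹ + n * (2 * Real.pi * I)) / (r * w)) := by
    intro x hx
    simp only [Set.mem_ofPred_eq] at hx
    have h1 : exp (r * (w * x)) = exp (log s⁻¹) := by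
      rw [exp_log (inv_ne_zero hs)]
      exact eq_inv_of_mul_eq_one_right hx
    obtain ⟨n, hn⟩ := exp_eq_exp_iff_exists_int.1 h1
    refine ⟨n, ?_⟩
    simp only
    rw [← hn, div_eq_iff hrw]
    ring
  exact (Set.countable_range _).mono hsub

/-- `G(x) = ∑_{k < N} ω^{-ck} F (ω^k x)` -/
noncomputable def G {ι : Type*} (J : Finset ι) (a s : ι → ℂ) (r : ι → ℕ) (N c : ℕ) (w : ℂ)
    (x : ℂ) : ℂ :=
  ∑ k ∈ Finset.range N, (w ^ (c * k))⁻¹ * F J a s r (w ^ k * x)

/-- the exceptional set -/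
def bad {ι : Type*} (J : Finset ι) (s : ι → ℂ) (r : ι → ℕ) (N : ℕ) (w : ℂ) : Set ℂ :=
  ⋃ k ∈ Finset.range N, ⋃ j ∈ J, {x : ℂ | s j * exp (r j * (w ^ k * x)) = 1}

theorem countable_bad {ι : Type*} (J : Finset ι) (s : ι → ℂ) (r : ι → ℕ) (N : ℕ) (w : ℂ)
    (hs : ∀ j ∈ J, s j ≠ 0) (hr : ∀ j ∈ J, 0 < r j) (hw : w ≠ 0) :
    (bad J s r N w).Countable := by
  unfold bad
  refine Set.Countable.biUnion (Finset.countable_toSet _) fun k _ => ?_
  refine Set.Countable.biUnion (Finset.countable_toSet _) fun j hj => ?_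
  exact countable_pole _ _ _ (hs j hj) (hr j hj) (pow_ne_zero _ hw)

theorem isClosed_bad {ι : Type*} (J : Finset ι) (s : ι → ℂ) (r : ι → ℕ) (N : ℕ) (w : ℂ) :
    IsClosed (bad J s r N w) := by
  unfold bad
  refine Set.Finite.isClosed_biUnion (Finset.finite_toSet _) fun k _ => ?_
  refine Set.Finite.isClosed_biUnion (Finset.finite_toSet _) fun j hj => ?_
  exact isClosed_eq (by fun_prop) continuous_const

theorem notMem_bad {ι : Type*} {J : Finset ι} {s : ι → ℂ} {r : ι → ℕ} {N : ℕ} {w x : ℂ}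
    (h : x ∉ bad J s r N w) {k : ℕ} (hk : k < N) {j : ι} (hj : j ∈ J) :
    1 - s j * exp (r j * (w ^ k * x)) ≠ 0 := by
  intro h0
  apply h
  unfold bad
  simp only [Set.mem_iUnion, Set.mem_ofPred_eq]
  exact ⟨k, Finset.mem_range.2 hk, j, hj, by linear_combination -h0⟩

theorem differentiableOn_G {ι : Type*} (J : Finset ι) (a s : ι → ℂ) (r : ι → ℕ) (N c : ℕ)
    (w : ℂ) : DifferentiableOn ℂ (G J a s r N c w) (bad J s r N w)ᶜ := by
  intro x hx
  refine DifferentiableAt.differentiableWithinAt ?_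
  unfold G F
  refine DifferentiableAt.fun_sum fun k hk => ?_
  refine DifferentiableAt.const_mul ?_ _
  refine DifferentiableAt.fun_sum fun j hj => ?_
  refine DifferentiableAt.div (by fun_prop) (by fun_prop) ?_
  exact notMem_bad hx (Finset.mem_range.1 hk) hj

/-- `F` is analytic at `0` when no `s_j` is `1` -/
theorem analyticAt_F {ι : Type*} (J : Finset ι) (a s : ι → ℂ) (r : ι → ℕ)
    (h1 : ∀ j ∈ J, s j ≠ 1) : AnalyticAt ℂ (F J a s r) 0 := by
  unfold F
  refine Finset.analyticAt_fun_sum _ fun j hj => ?_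
  refine AnalyticAt.div (by fun_prop) (by fun_prop) ?_
  have := h1 j hj
  simp only [mul_zero, exp_zero, mul_one]
  intro h
  exact this (by linear_combination -h)

theorem zero_notMem_bad {ι : Type*} (J : Finset ι) (s : ι → ℂ) (r : ι → ℕ) (N : ℕ) (w : ℂ)
    (h1 : ∀ j ∈ J, s j ≠ 1) : (0 : ℂ) ∉ bad J s r N w := by
  unfold bad
  simp only [Set.mem_iUnion, Set.mem_ofPred_eq, mul_zero, exp_zero, mul_one, not_exists]
  intro k hk j hj
  exact h1 j hj

/-- near `0` the function `G` is constant -/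
theorem G_eventually {ι : Type*} (J : Finset ι) (a s : ι → ℂ) (r : ι → ℕ) (N c : ℕ) (w : ℂ)
    (hw : IsPrimitiveRoot w N) (hN : 0 < N) (h1 : ∀ j ∈ J, s j ≠ 1)
    (hc : ∀ m, 1 ≤ m → m ≡ c [MOD N] → iteratedDeriv m (F J a s r) 0 = 0) :
    ∀ᶠ x in 𝓝 (0 : ℂ), G J a s r N c w x = G J a s r N c w 0 := by
  have hw0 : w ≠ 0 := hw.ne_zero hN.ne'
  have hF := (analyticAt_F J a s r h1).hasFPowerSeriesAt
  set q : ℕ → ℂ := fun m => iteratedDeriv m (F J a s r) 0 / m.factorial with hq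
  have hq0 : ∀ m, 1 ≤ m → m ≡ c [MOD N] → q m = 0 := by
    intro m hm hmc
    simp [hq, hc m hm hmc]
  have hsum : ∀ᶠ x in 𝓝 (0 : ℂ), HasSum (fun m : ℕ => q m * x ^ m) (F J a s r x) := by
    have := hF.eventually_hasSum
    filter_upwards [this] with x hx
    simp only [zero_add] at hx
    simpa only [FormalMultilinearSeries.ofScalars_apply_eq, smul_eq_mul] using hx
  have hev : ∀ k : ℕ, ∀ᶠ x in 𝓝 (0 : ℂ),
      HasSum (fun m : ℕ => q m * (w ^ k * x) ^ m) (F J a s r (w ^ k * x)) := by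
    intro k
    have ht : Tendsto (fun x : ℂ => w ^ k * x) (𝓝 0) (𝓝 0) := by
      have : ContinuousAt (fun x : ℂ => w ^ k * x) 0 := by fun_prop
      simpa using this.tendsto
    exact ht.eventually hsum
  have hall : ∀ᶠ x in 𝓝 (0 : ℂ), ∀ k ∈ Finset.range N,
      HasSum (fun m : ℕ => q m * (w ^ k * x) ^ m) (F J a s r (w ^ k * x)) := by
    rw [Filter.eventually_all_finset]
    intro k _
    exact hev k
  have hkey : ∀ x : ℂ, (∀ k ∈ Finset.range N,
      HasSum (fun m : ℕ => q m * (w ^ k * x) ^ m) (F J a s r (w ^ k * x))) →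
      HasSum (fun m : ℕ => (∑ k ∈ Finset.range N, (w ^ (c * k))⁻¹ * (q m * (w ^ k * x) ^ m)))
        (G J a s r N c w x) := by
    intro x hx
    unfold G
    exact hasSum_sum fun k hk => (hx k hk).mul_left _
  have hterm : ∀ (x : ℂ) (m : ℕ), 1 ≤ m →
      (∑ k ∈ Finset.range N, (w ^ (c * k))⁻¹ * (q m * (w ^ k * x) ^ m)) = 0 := by
    intro x m hm
    by_cases hmc : m ≡ c [MOD N]
    · rw [hq0 m hm hmc]
      simp
    · -- geometric sum
      set z : ℂ := w ^ m * (w ^ c)⁻¹ with hz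
      have hzN : z ^ N = 1 := by
        rw [hz, mul_pow, inv_pow, ← pow_mul, ← pow_mul, mul_comm m N, mul_comm c N, pow_mul,
          pow_mul, hw.pow_eq_one]
        simp
      have hz1 : z ≠ 1 := by
        intro h
        apply hmc
        have h2 : w ^ ((m : ℤ) - (c : ℤ)) = 1 := by
          rw [zpow_sub₀ hw0, zpow_natCast, zpow_natCast, div_eq_mul_inv]
          exact h
        rw [hw.zpow_eq_one_iff_dvd] at h2
        exact (Nat.modEq_iff_dvd.2 h2).symm
      have hgeo : ∑ k ∈ Finset.range N, z ^ k = 0 := by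
        have := geom_sum_mul z N
        rw [hzN, sub_self] at this
        rcases mul_eq_zero.1 this with h | h
        · exact h
        · exact absurd (sub_eq_zero.1 h) hz1
      have : ∀ k ∈ Finset.range N, (w ^ (c * k))⁻¹ * (q m * (w ^ k * x) ^ m) =
          (q m * x ^ m) * z ^ k := by
        intro k _
        rw [hz, mul_pow, mul_pow, inv_pow, ← pow_mul, ← pow_mul, ← pow_mul, mul_comm k m]
        ring
      rw [Finset.sum_congr rfl this, ← Finset.mul_sum, hgeo, mul_zero]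
  have hG : ∀ x : ℂ, (∀ k ∈ Finset.range N,
      HasSum (fun m : ℕ => q m * (w ^ k * x) ^ m) (F J a s r (w ^ k * x))) →
      G J a s r N c w x = ∑ k ∈ Finset.range N, (w ^ (c * k))⁻¹ * q 0 := by
    intro x hx
    have h2 := hkey x hx
    have h3 : HasSum (fun m : ℕ =>
        (∑ k ∈ Finset.range N, (w ^ (c * k))⁻¹ * (q m * (w ^ k * x) ^ m)))
        (∑ k ∈ Finset.range N, (w ^ (c * k))⁻¹ * (q 0 * (w ^ k * x) ^ 0)) := by
      refine hasSum_single 0 ?_
      intro m hm
      exact hterm x m (Nat.one_le_iff_ne_zero.2 hm)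
    rw [h2.unique h3]
    simp
  filter_upwards [hall] with x hx
  rw [hG x hx, hG 0 hall.self_of_nhds]

theorem isPreconnected_good {ι : Type*} (J : Finset ι) (s : ι → ℂ) (r : ι → ℕ) (N : ℕ) (w : ℂ)
    (hs : ∀ j ∈ J, s j ≠ 0) (hr : ∀ j ∈ J, 0 < r j) (hw : w ≠ 0) :
    IsPreconnected (bad J s r N w)ᶜ := by
  have h : 1 < Module.rank ℝ ℂ := by
    rw [Complex.rank_real_complex]
    norm_num
  exact ((countable_bad J s r N w hs hr hw).isConnected_compl_of_one_lt_rank h).isPreconnected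

/-- `G` is constant outside the exceptional set -/
theorem G_const {ι : Type*} (J : Finset ι) (a s : ι → ℂ) (r : ι → ℕ) (N c : ℕ) (w : ℂ)
    (hw : IsPrimitiveRoot w N) (hN : 0 < N) (h0 : ∀ j ∈ J, s j ≠ 0) (h1 : ∀ j ∈ J, s j ≠ 1)
    (hr : ∀ j ∈ J, 0 < r j)
    (hc : ∀ m, 1 ≤ m → m ≡ c [MOD N] → iteratedDeriv m (F J a s r) 0 = 0) :
    Set.EqOn (G J a s r N c w) (fun _ => G J a s r N c w 0) (bad J s r N w)ᶜ := by
  have hw0 : w ≠ 0 := hw.ne_zero hN.ne'
  have hopen : IsOpen (bad J s r N w)ᶜ := (isClosed_bad J s r N w).isOpen_compl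
  refine AnalyticOnNhd.eqOn_of_preconnected_of_eventuallyEq (z₀ := 0)
    ((differentiableOn_G J a s r N c w).analyticOnNhd hopen) analyticOnNhd_const
    (isPreconnected_good J s r N w h0 hr hw0) (zero_notMem_bad J s r N w h1) ?_
  exact G_eventually J a s r N c w hw hN h1 hc

theorem tendsto_G {ι : Type*} (J : Finset ι) (a s : ι → ℂ) (r : ι → ℕ) (N c : ℕ) (w x0 : ℂ)
    (hw : w ≠ 0) (hr : ∀ j ∈ J, 0 < r j) :
    Tendsto (fun x => (x - x0) * G J a s r N c w x) (𝓝[≠] x0)
      (𝓝 (∑ k ∈ Finset.range N, (w ^ (c * k))⁻¹ * ∑ j ∈ J,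
        if s j * exp (r j * (w ^ k * x0)) = 1 then -(a j / (r j * w ^ k)) else 0)) := by
  have h1 : ∀ k ∈ Finset.range N, Tendsto
      (fun x => (w ^ (c * k))⁻¹ * ∑ j ∈ J, (x - x0) * (a j / (1 - s j * exp (r j * (w ^ k * x)))))
      (𝓝[≠] x0) (𝓝 ((w ^ (c * k))⁻¹ * ∑ j ∈ J,
        if s j * exp (r j * (w ^ k * x0)) = 1 then -(a j / (r j * w ^ k)) else 0)) := by
    intro k _
    refine Tendsto.const_mul _ (tendsto_finsetSum _ fun j hj => ?_)
    exact tendsto_res (a j) (s j) (w ^ k) x0 (r j) (hr j hj) (pow_ne_zero _ hw)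
  refine (tendsto_finsetSum _ h1).congr fun x => ?_
  unfold G F
  rw [Finset.mul_sum]
  refine Finset.sum_congr rfl fun k _ => ?_
  rw [← Finset.mul_sum]
  ring

/-- the sum of the residues at `x0` is zero -/
theorem res_zero {ι : Type*} (J : Finset ι) (a s : ι → ℂ) (r : ι → ℕ) (N c : ℕ) (w x0 : ℂ)
    (hw : IsPrimitiveRoot w N) (hN : 0 < N) (h0 : ∀ j ∈ J, s j ≠ 0) (h1 : ∀ j ∈ J, s j ≠ 1)
    (hr : ∀ j ∈ J, 0 < r j)
    (hc : ∀ m, 1 ≤ m → m ≡ c [MOD N] → iteratedDeriv m (F J a s r) 0 = 0) :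
    ∑ k ∈ Finset.range N, (w ^ (c * k))⁻¹ * ∑ j ∈ J,
      (if s j * exp (r j * (w ^ k * x0)) = 1 then -(a j / (r j * w ^ k)) else 0) = 0 := by
  have hw0 : w ≠ 0 := hw.ne_zero hN.ne'
  set V : Set ℂ := (bad J s r N w ∪ {x0})ᶜ with hV
  have hdense : Dense V := by
    refine Set.Countable.dense_compl ℝ ?_
    exact (countable_bad J s r N w h0 hr hw0).union (Set.countable_singleton _)
  have : (𝓝[V] x0).NeBot := mem_closure_iff_nhdsWithin_neBot.1 (hdense x0)
  have hle : 𝓝[V] x0 ≤ 𝓝[≠] x0 := nhdsWithin_mono _ (by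
    intro x hx
    simp only [hV, Set.mem_compl_iff, Set.mem_union, Set.mem_singleton_iff, not_or] at hx
    exact hx.2)
  have hA := (tendsto_G J a s r N c w x0 hw0 hr).mono_left hle
  have hB : Tendsto (fun x => (x - x0) * G J a s r N c w x) (𝓝[V] x0) (𝓝 0) := by
    have h2 : Tendsto (fun x : ℂ => (x - x0) * G J a s r N c w 0) (𝓝[V] x0) (𝓝 0) := by
      have : ContinuousAt (fun x : ℂ => (x - x0) * G J a s r N c w 0) x0 := by fun_prop
      have h3 := this.tendsto
      simp only [sub_self, zero_mul] at h3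
      exact h3.mono_left nhdsWithin_le_nhds
    refine h2.congr' ?_
    filter_upwards [self_mem_nhdsWithin] with x hx
    have hx' : x ∈ (bad J s r N w)ᶜ := by
      simp only [hV, Set.mem_compl_iff, Set.mem_union, Set.mem_singleton_iff, not_or] at hx
      exact hx.1
    rw [G_const J a s r N c w hw hN h0 h1 hr hc hx']
  exact tendsto_nhds_unique hA hB

theorem rho_period {ι : Type*} (J : Finset ι) (a s : ι → ℂ) (r : ι → ℕ) (x : ℂ) (n : ℤ) :
    rho J a s r (x + n * (2 * Real.pi * I)) = rho J a s r x := by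
  unfold rho
  refine Finset.sum_congr rfl fun j _ => ?_
  have : exp (r j * (x + n * (2 * Real.pi * I))) = exp (r j * x) := by
    rw [exp_eq_exp_iff_exists_int]
    refine ⟨r j * n, ?_⟩
    push_cast
    ring
  rw [this]

/-- the other `N`-th roots of unity do not contribute high up in the strip -/
theorem no_pole (s x0 w : ℂ) (r : ℕ) (hs : s ≠ 0) (hr : 0 < r) (hw : w.im ≠ 0) :
    ∃ n0 : ℕ, ∀ n : ℕ, n0 ≤ n → s * exp (r * (w * (x0 + n * (2 * Real.pi * I)))) ≠ 1 := by
  have hr' : (0 : ℝ) < r := by exact_mod_cast hr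
  obtain ⟨n0, hn0⟩ := exists_nat_gt
    ((|Real.log ‖s‖| / r + |(w * x0).re|) / (|w.im| * (2 * Real.pi)))
  have hden : 0 < |w.im| * (2 * Real.pi) := by positivity
  refine ⟨n0, fun n hn h => ?_⟩
  rw [div_lt_iff₀ hden] at hn0
  have h1 : ‖s‖ * Real.exp ((r : ℝ) * ((w * x0).re - w.im * (2 * Real.pi) * n)) = 1 := by
    have h2 := congrArg norm h
    rw [norm_mul, Complex.norm_exp, norm_one] at h2
    rw [← h2]
    congr 2
    simp only [mul_re, natCast_re, natCast_im, zero_mul, sub_zero, add_re, add_im, mul_im, I_re,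
      I_im, ofReal_re, ofReal_im, mul_zero, mul_one, re_ofNat, im_ofNat, add_zero]
    ring
  have hs' : 0 < ‖s‖ := norm_pos_iff.2 hs
  have h3 : Real.log ‖s‖ + (r : ℝ) * ((w * x0).re - w.im * (2 * Real.pi) * n) = 0 := by
    have := congrArg Real.log h1
    rwa [Real.log_mul hs'.ne' (Real.exp_ne_zero _), Real.log_exp, Real.log_one] at this
  have h4 : |w.im| * (2 * Real.pi) * n ≤ |Real.log ‖s‖| / r + |(w * x0).re| := by
    have h5 : w.im * (2 * Real.pi) * n = Real.log ‖s‖ / r + (w * x0).re := by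
      field_simp
      linarith
    have h6 : |w.im| * (2 * Real.pi) * n = |w.im * (2 * Real.pi) * n| := by
      rw [abs_mul, abs_mul, abs_of_pos (by positivity : (0 : ℝ) < 2 * Real.pi),
        abs_of_nonneg (by positivity : (0 : ℝ) ≤ n)]
    rw [h6, h5]
    refine (abs_add_le _ _).trans ?_
    rw [abs_div, abs_of_pos hr']
  have h7 : (n0 : ℝ) ≤ n := by exact_mod_cast hn
  have h8 : (n0 : ℝ) * (|w.im| * (2 * Real.pi)) ≤ n * (|w.im| * (2 * Real.pi)) :=
    mul_le_mul_of_nonneg_right h7 hden.le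
  linarith

/-- a primitive root of even order `N`: only `1` and `-1` are real -/
theorem prim_im {N : ℕ} (hN : 0 < N) {k : ℕ} (hk : k < N) (hk0 : k ≠ 0)
    (hk2 : 2 * k ≠ N) : (exp (2 * Real.pi * I / N) ^ k).im ≠ 0 := by
  have hN' : (N : ℝ) ≠ 0 := by exact_mod_cast hN.ne'
  have h1 : exp (2 * Real.pi * I / N) ^ k = exp (((2 * Real.pi * k / N : ℝ) : ℂ) * I) := by
    rw [← exp_nat_mul]
    congr 1
    push_cast
    ring
  rw [h1, exp_ofReal_mul_I_im, Ne, Real.sin_eq_zero_iff]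
  rintro ⟨n, hn⟩
  have h3 : (n : ℝ) * N = 2 * k := by
    have hpi := Real.pi_pos
    have : (n : ℝ) * Real.pi * N = 2 * Real.pi * k := by
      rw [hn]
      field_simp
    have h4 : Real.pi * ((n : ℝ) * N - 2 * k) = 0 := by linear_combination this
    rcases mul_eq_zero.1 h4 with h | h
    · exact absurd h hpi.ne'
    · linarith
  have h5 : n * (N : ℤ) = 2 * k := by exact_mod_cast h3
  have hN0 : (0 : ℤ) < N := by exact_mod_cast hN
  have hn0 : 0 < n := by
    by_contra h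
    have : n * (N : ℤ) ≤ 0 := mul_nonpos_of_nonpos_of_nonneg (by omega) hN0.le
    omega
  have hn2 : n < 2 := by
    by_contra h
    have : 2 * (N : ℤ) ≤ n * N := mul_le_mul_of_nonneg_right (by omega) hN0.le
    omega
  have hn1 : n = 1 := by omega
  rw [hn1] at h5
  omega

/-- **Main lemma.** `N` even, `c` even, all Taylor coefficients of index `m ≡ c mod N`, `m ≥ 1`,
vanish: then the residues are symmetric. -/
theorem rho_symm {ι : Type*} (J : Finset ι) (a s : ι → ℂ) (r : ι → ℕ) (N c : ℕ)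
    (hN : 0 < N) (hNe : Even N) (hce : Even c) (h0 : ∀ j ∈ J, s j ≠ 0) (h1 : ∀ j ∈ J, s j ≠ 1)
    (hr : ∀ j ∈ J, 0 < r j)
    (hc : ∀ m, 1 ≤ m → m ≡ c [MOD N] → iteratedDeriv m (F J a s r) 0 = 0) (x0 : ℂ) :
    rho J a s r x0 = rho J a s r (-x0) := by
  set w : ℂ := exp (2 * Real.pi * I / N) with hwdef
  have hw : IsPrimitiveRoot w N := Complex.isPrimitiveRoot_exp N hN.ne'
  obtain ⟨M, hM⟩ := hNe
  have hM0 : 0 < M := by omega
  have hwM : w ^ M = -1 := by
    have hsq : (w ^ M) ^ 2 = 1 := by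
      rw [← pow_mul, show M * 2 = N by omega, hw.pow_eq_one]
    have hne : w ^ M ≠ 1 := by
      intro h
      have := (hw.pow_eq_one_iff_dvd M).1 h
      have := Nat.le_of_dvd hM0 this
      omega
    rcases mul_self_eq_one_iff.1 (show w ^ M * w ^ M = 1 by rw [← sq]; exact hsq) with h | h
    · exact absurd h hne
    · exact h
  -- choose `n` large
  have hex : ∃ n : ℕ, ∀ k ∈ (Finset.range N).filter (fun k => k ≠ 0 ∧ k ≠ M), ∀ j ∈ J,
      s j * exp (r j * (w ^ k * (x0 + n * (2 * Real.pi * I)))) ≠ 1 := by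
    have h2 : ∀ k ∈ (Finset.range N).filter (fun k => k ≠ 0 ∧ k ≠ M), ∀ j ∈ J, ∀ᶠ n : ℕ in atTop,
        s j * exp (r j * (w ^ k * (x0 + n * (2 * Real.pi * I)))) ≠ 1 := by
      intro k hk j hj
      simp only [Finset.mem_filter, Finset.mem_range] at hk
      obtain ⟨n0, hn0⟩ := no_pole (s j) x0 (w ^ k) (r j) (h0 j hj) (hr j hj)
        (prim_im hN hk.1 hk.2.1 (by omega))
      exact eventually_atTop.2 ⟨n0, hn0⟩
    have h3 : ∀ᶠ n : ℕ in atTop, ∀ k ∈ (Finset.range N).filter (fun k => k ≠ 0 ∧ k ≠ M), ∀ j ∈ J,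
        s j * exp (r j * (w ^ k * (x0 + n * (2 * Real.pi * I)))) ≠ 1 := by
      rw [Filter.eventually_all_finset]
      intro k hk
      rw [Filter.eventually_all_finset]
      intro j hj
      exact h2 k hk j hj
    exact h3.exists
  obtain ⟨n, hn⟩ := hex
  have hres := res_zero J a s r N c w (x0 + n * (2 * Real.pi * I)) hw hN h0 h1 hr hc
  have hsub : ({0, M} : Finset ℕ) ⊆ Finset.range N := by
    intro k hk
    simp only [Finset.mem_insert, Finset.mem_singleton] at hk
    rw [Finset.mem_range]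
    omega
  rw [← Finset.sum_subset hsub ?_, Finset.sum_pair hM0.ne] at hres
  · have hc1 : (w ^ (c * M))⁻¹ = 1 := by
      rw [mul_comm, pow_mul, hwM, hce.neg_one_pow, inv_one]
    rw [hc1, mul_zero, pow_zero, inv_one, one_mul, one_mul] at hres
    simp only [one_mul, mul_one, hwM] at hres
    have e1 : ∑ j ∈ J, (if s j * exp (r j * (x0 + n * (2 * Real.pi * I))) = 1
        then -(a j / (r j : ℂ)) else 0) = -rho J a s r (x0 + (n : ℤ) * (2 * Real.pi * I)) := by
      unfold rho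
      rw [← Finset.sum_neg_distrib]
      refine Finset.sum_congr rfl fun j _ => ?_
      push_cast
      split_ifs <;> simp
    have e2 : ∑ j ∈ J, (if s j * exp (r j * (-1 * (x0 + n * (2 * Real.pi * I)))) = 1
        then -(a j / ((r j : ℂ) * -1)) else 0) =
        rho J a s r (-x0 + (-n : ℤ) * (2 * Real.pi * I)) := by
      unfold rho
      refine Finset.sum_congr rfl fun j _ => ?_
      have : (-1 : ℂ) * (x0 + n * (2 * Real.pi * I)) = -x0 + ((-n : ℤ) : ℂ) * (2 * Real.pi * I) := by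
        push_cast
        ring
      rw [this]
      split_ifs
      · rw [mul_neg_one, div_neg, neg_neg]
      · rfl
    rw [e1, e2, rho_period, rho_period] at hres
    linear_combination -hres
  · intro k hk hk'
    have : ∑ j ∈ J, (if s j * exp (r j * (w ^ k * (x0 + n * (2 * Real.pi * I)))) = 1
        then -(a j / ((r j : ℂ) * w ^ k)) else 0) = 0 := by
      refine Finset.sum_eq_zero fun j hj => ?_
      rw [if_neg]
      refine hn k ?_ j hj
      simp only [Finset.mem_filter]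
      simp only [Finset.mem_insert, Finset.mem_singleton, not_or] at hk'
      exact ⟨hk, hk'⟩
    rw [this, mul_zero]

end H93FD
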